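import Pool.Agent.H705.RO.Stm3

/-! # Part CON (helper356) -/

set_option autoImplicit false

namespace Pool.Agent.H356.RO

open MeasureTheory ProbabilityTheory Filter Topology Finset
open Pool.Agent.H705.RO

/-- one term -/
theorem one_step {W : ℕ → ℝ → ℝ} (hW : ∀ n t, |W n t| ≤ 2)
    (hL : ∀ (n : ℕ) (t t' : ℝ), |W n t - W n t'| ≤ 2 * |t - t'|) {z z' : ℝ} (h1 : 1 ≤ z)
    (h2 : z ≤ z') (h3 : z' ≤ z + 1) (n : ℕ) :
    |Real.sqrt z' * W n (Real.log z') - Real.sqrt z * W n (Real.log z)| ≤ 6 * (z' - z) := by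
  have hz : 0 < z := by linarith
  have hz' : 0 < z' := by linarith
  have hs : 1 ≤ Real.sqrt z := Real.one_le_sqrt.2 h1
  have hs' : Real.sqrt z ≤ Real.sqrt z' := Real.sqrt_le_sqrt h2
  have e1 : Real.sqrt z' - Real.sqrt z ≤ z' - z := by
    have q1 := Real.sq_sqrt hz.le
    have q2 := Real.sq_sqrt hz'.le
    nlinarith
  have e2 : Real.log z' - Real.log z ≤ (z' - z) / z := by
    rw [← Real.log_div hz'.ne' hz.ne']
    have q := Real.log_le_sub_one_of_pos (div_pos hz' hz)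
    have e : z' / z - 1 = (z' - z) / z := by field_simp
    linarith
  have e2' : Real.log z ≤ Real.log z' := Real.log_le_log hz h2
  have e3 : Real.sqrt z' ≤ 2 * z := by
    rw [Real.sqrt_le_left (by linarith)]
    nlinarith
  have e4 : Real.sqrt z' * |W n (Real.log z') - W n (Real.log z)| ≤ 4 * (z' - z) := by
    have q := hL n (Real.log z') (Real.log z)
    rw [abs_of_nonneg (by linarith : 0 ≤ Real.log z' - Real.log z)] at q
    have q2 : |W n (Real.log z') - W n (Real.log z)| ≤ 2 * ((z' - z) / z) := by linarith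
    calc Real.sqrt z' * |W n (Real.log z') - W n (Real.log z)| ≤ (2 * z) * (2 * ((z' - z) / z)) :=
          mul_le_mul e3 q2 (abs_nonneg _) (by linarith)
      _ = 4 * (z' - z) := by
          field_simp
          ring
  have e5 : |Real.sqrt z' - Real.sqrt z| * |W n (Real.log z)| ≤ (z' - z) * 2 := by
    rw [abs_of_nonneg (by linarith : 0 ≤ Real.sqrt z' - Real.sqrt z)]
    exact mul_le_mul e1 (hW n _) (abs_nonneg _) (by linarith)
  have e6 : Real.sqrt z' * W n (Real.log z') - Real.sqrt z * W n (Real.log z) =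
      Real.sqrt z' * (W n (Real.log z') - W n (Real.log z)) +
        (Real.sqrt z' - Real.sqrt z) * W n (Real.log z) := by ring
  rw [e6]
  refine (abs_add_le _ _).trans ?_
  rw [abs_mul, abs_mul, abs_of_nonneg (Real.sqrt_nonneg z')]
  linarith

/-- all terms -/
theorem all_step {W : ℕ → ℝ → ℝ} (hW : ∀ n t, |W n t| ≤ 2)
    (hL : ∀ (n : ℕ) (t t' : ℝ), |W n t - W n t'| ≤ 2 * |t - t'|) {z z' : ℝ} (h1 : 1 ≤ z)
    (h2 : z ≤ z') (h3 : z' ≤ z + 1) (N : ℕ) :
    |Real.sqrt z' * part W N (Real.log z') - Real.sqrt z * part W N (Real.log z)| ≤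
      N * (6 * (z' - z)) := by
  unfold part
  rw [Finset.mul_sum, Finset.mul_sum, ← Finset.sum_sub_distrib]
  refine (Finset.abs_sum_le_sum_abs _ _).trans ?_
  refine (Finset.sum_le_sum fun n _ => one_step hW hL h1 h2 h3 n).trans ?_
  rw [Finset.sum_const, Finset.card_range, nsmul_eq_mul]

/-- the tail at one point -/
theorem tail_step {W : ℕ → ℝ → ℝ} {S : ℝ → ℝ} {K s : ℝ} (hs0 : 0 < s) (hs4 : s ^ 4 = 2)
    (hK : ∀ J k : ℕ, ∀ t : ℝ, 0 ≤ t → t ≤ 2 ^ k → ∀ M : ℕ, 2 ^ J ≤ M →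
      |S t - part W M t| ≤ K * (2 : ℝ) ^ (-(pe 0 * J / 2)) * Real.sqrt ((J : ℝ) + k + 1))
    (j : ℕ) {y : ℝ} (hy1 : 1 ≤ y) (hy2 : y ≤ 2 ^ (j + 2)) :
    Real.sqrt y * |S (Real.log y) - part W (8 ^ (j + 1)) (Real.log y)| ≤
      |K| * s * ((4 * (j : ℝ) + 6) * (1 / s) ^ j) := by
  have hy0 : 0 < y := by linarith
  have h1 := hK (3 * (j + 1)) (j + 2) (Real.log y) (Real.log_nonneg hy1)
    (((Real.log_le_sub_one_of_pos hy0).trans (by linarith)).trans hy2) (8 ^ (j + 1))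
    (by rw [pow_mul]; norm_num)
  have hpe : pe 0 = 1 / 2 := by
    unfold pe
    norm_num
  have h2 : (2 : ℝ) ^ (-(pe 0 * ((3 * (j + 1) : ℕ) : ℝ) / 2)) = 1 / s ^ (3 * (j + 1)) := by
    have e1 : (2 : ℝ) = s ^ (4 : ℝ) := by
      rw [← hs4]
      exact_mod_cast rfl
    rw [hpe]
    nth_rw 1 [e1]
    rw [← Real.rpow_mul hs0.le, ← Real.rpow_natCast s (3 * (j + 1)), one_div (s ^ _),
      ← Real.rpow_neg hs0.le]
    congr 1
    push_cast
    ring
  have h3 : Real.sqrt y ≤ s ^ (2 * (j + 2)) := by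
    rw [Real.sqrt_le_left (by positivity)]
    have e1 : (s ^ (2 * (j + 2))) ^ 2 = 2 ^ (j + 2) := by
      rw [← hs4, ← pow_mul, ← pow_mul]
      congr 1
      ring
    rw [e1]
    exact hy2
  have h4 : Real.sqrt (((3 * (j + 1) : ℕ) : ℝ) + ((j + 2 : ℕ) : ℝ) + 1) ≤ 4 * (j : ℝ) + 6 := by
    have hj : (0 : ℝ) ≤ j := Nat.cast_nonneg j
    rw [Real.sqrt_le_left (by linarith)]
    push_cast
    nlinarith
  rw [h2] at h1
  have h5 : |S (Real.log y) - part W (8 ^ (j + 1)) (Real.log y)| ≤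
      |K| * (1 / s ^ (3 * (j + 1))) * (4 * (j : ℝ) + 6) := by
    refine h1.trans ?_
    refine mul_le_mul ?_ h4 (Real.sqrt_nonneg _) (by positivity)
    exact mul_le_mul_of_nonneg_right (le_abs_self K) (by positivity)
  calc Real.sqrt y * |S (Real.log y) - part W (8 ^ (j + 1)) (Real.log y)|
      ≤ s ^ (2 * (j + 2)) * (|K| * (1 / s ^ (3 * (j + 1))) * (4 * (j : ℝ) + 6)) :=
        mul_le_mul h3 h5 (abs_nonneg _) (by positivity)
    _ = |K| * s * ((4 * (j : ℝ) + 6) * (1 / s) ^ j) := by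
        have e1 : s ^ (2 * (j + 2)) = s ^ j * s ^ j * s ^ 4 := by
          rw [← pow_add, ← pow_add]
          congr 1
          ring
        have e2 : s ^ (3 * (j + 1)) = s ^ j * s ^ j * s ^ j * s ^ 3 := by
          rw [← pow_add, ← pow_add, ← pow_add]
          congr 1
          ring
        rw [e1, e2, one_div_pow]
        field_simp

theorem T_CON : P_CON := by
  intro W S C hC hW hL hUT hG
  obtain ⟨K, hK⟩ := hUT 0
  obtain ⟨s, hs⟩ : ∃ s : ℝ, s = (2 : ℝ) ^ (1 / 4 : ℝ) := ⟨_, rfl⟩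
  have hs0 : 0 < s := by
    rw [hs]
    exact Real.rpow_pos_of_pos (by norm_num) _
  have hs4 : s ^ 4 = 2 := by
    rw [hs, ← Real.rpow_natCast, ← Real.rpow_mul (by norm_num)]
    norm_num
  have hs1 : 1 < s := by
    by_contra hc
    push Not at hc
    have : s ^ 4 ≤ 1 := pow_le_one₀ hs0.le hc
    linarith
  have hr1 : |1 / s| < 1 := by
    rw [abs_of_pos (by positivity), div_lt_one hs0]
    exact hs1
  -- the three error terms
  have T1 : Tendsto (fun j : ℕ => 96 * (1 / 4 : ℝ) ^ j) atTop (𝓝 0) := by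
    have q := (tendsto_pow_atTop_nhds_zero_of_lt_one (r := (1 / 4 : ℝ)) (by norm_num)
      (by norm_num)).const_mul 96
    rwa [mul_zero] at q
  have T2 : Tendsto (fun j : ℕ => |K| * s * ((4 * (j : ℝ) + 6) * (1 / s) ^ j)) atTop (𝓝 0) := by
    have q1 := tendsto_self_mul_const_pow_of_abs_lt_one hr1
    have q2 := tendsto_pow_atTop_nhds_zero_of_abs_lt_one hr1
    have q3 := ((q1.const_mul 4).add (q2.const_mul 6)).const_mul (|K| * s)
    rw [mul_zero, mul_zero, add_zero, mul_zero] at q3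
    refine q3.congr fun j => ?_
    ring
  have T3 : Tendsto (fun j : ℕ => C * (((j : ℝ) + 3) * (1 / 32 : ℝ) ^ j)) atTop (𝓝 0) := by
    have hr : |(1 / 32 : ℝ)| < 1 := by
      rw [abs_of_pos (by norm_num)]
      norm_num
    have q1 := tendsto_self_mul_const_pow_of_abs_lt_one hr
    have q2 := tendsto_pow_atTop_nhds_zero_of_abs_lt_one hr
    have q3 := (q1.add (q2.const_mul 3)).const_mul C
    rw [mul_zero, add_zero, mul_zero] at q3
    refine q3.congr fun j => ?_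
    ring
  obtain ⟨j₀, hj₀⟩ := eventually_atTop.1 (hG.and ((T1.eventually_lt_const (u := 1 / 8) (by norm_num)).and
    ((T2.eventually_lt_const (u := 1 / 16) (by norm_num)).and
      (T3.eventually_lt_const (u := 1 / 8) (by norm_num)))))
  filter_upwards [eventually_ge_atTop ((2 : ℝ) ^ (j₀ + 1))] with x hx h hh1 hh2
  -- the scale
  have hx1 : 1 ≤ x := le_trans (one_le_pow₀ (by norm_num)) hx
  have hx0 : 0 < x := by linarith
  obtain ⟨j, hj⟩ : ∃ j : ℕ, j = Nat.log 2 ⌊x⌋₊ := ⟨_, rfl⟩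
  have hfl : 1 ≤ ⌊x⌋₊ := Nat.le_floor (by exact_mod_cast hx1)
  have hjx : (2 : ℝ) ^ j ≤ x := by
    have q : 2 ^ j ≤ ⌊x⌋₊ := by
      rw [hj]
      exact Nat.pow_log_le_self 2 (by omega)
    calc (2 : ℝ) ^ j = ((2 ^ j : ℕ) : ℝ) := by push_cast; rfl
      _ ≤ (⌊x⌋₊ : ℝ) := by exact_mod_cast q
      _ ≤ x := Nat.floor_le hx0.le
  have hjx2 : x < (2 : ℝ) ^ (j + 1) := by
    have q : ⌊x⌋₊ < 2 ^ (j + 1) := by
      rw [hj]
      exact Nat.lt_pow_succ_log_self (by norm_num) _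
    calc x < (⌊x⌋₊ : ℝ) + 1 := Nat.lt_floor_add_one x
      _ ≤ ((2 ^ (j + 1) : ℕ) : ℝ) := by exact_mod_cast q
      _ = (2 : ℝ) ^ (j + 1) := by push_cast; rfl
  have hjj : j₀ < j + 1 - 1 + 1 := by
    have q : (2 : ℝ) ^ (j₀ + 1) < 2 ^ (j + 1) := lt_of_le_of_lt hx hjx2
    have q2 := (pow_lt_pow_iff_right₀ (by norm_num : (1 : ℝ) < 2)).1 q
    omega
  obtain ⟨hG', E1, E2, E3⟩ := hj₀ j (by omega)
  have hj1 : 1 ≤ j := by
    have q : (2 : ℝ) ^ (j₀ + 1) < 2 ^ (j + 1) := lt_of_le_of_lt hx hjx2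
    have q2 := (pow_lt_pow_iff_right₀ (by norm_num : (1 : ℝ) < 2)).1 q
    omega
  have hx2 : 2 ≤ x := by
    calc (2 : ℝ) = 2 ^ 1 := by norm_num
      _ ≤ 2 ^ j := pow_le_pow_right₀ (by norm_num) hj1
      _ ≤ x := hjx
  have hlx : 1 / 2 ≤ Real.log x := by
    have q := Real.log_two_gt_d9
    have q2 := Real.log_le_log (by norm_num) hx2
    linarith
  have hlx2 : Real.log x ≤ (j : ℝ) + 1 := by
    have q : Real.log x ≤ Real.log (2 ^ (j + 1)) := Real.log_le_log hx0 hjx2.le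
    rw [Real.log_pow] at q
    push_cast at q
    have q2 := Real.log_two_lt_d9
    have q3 : (0 : ℝ) ≤ (j : ℝ) + 1 := by positivity
    nlinarith
  -- the grid points
  obtain ⟨D, hD⟩ : ∃ D : ℝ, D = 32 ^ j := ⟨_, rfl⟩
  have hD0 : 0 < D := by
    rw [hD]
    positivity
  have hD2 : 2 ≤ D := by
    rw [hD]
    calc (2 : ℝ) ≤ 32 ^ 1 := by norm_num
      _ ≤ 32 ^ j := pow_le_pow_right₀ (by norm_num) hj1
  obtain ⟨δ, hδ⟩ : ∃ δ : ℝ, δ = 1 / D := ⟨_, rfl⟩
  have hδ0 : 0 < δ := by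
    rw [hδ]
    positivity
  have hδ2 : δ ≤ 1 / 2 := by
    rw [hδ]
    exact one_div_le_one_div_of_le (by norm_num) hD2
  obtain ⟨y, hy⟩ : ∃ y : ℝ, y = x + h := ⟨_, rfl⟩
  have grid : ∀ z : ℝ, 0 < z → ∃ i : ℕ, z ≤ (i : ℝ) / D ∧ (i : ℝ) / D ≤ z + δ ∧
      ∀ m : ℕ, z ≤ (m : ℝ) / D → (i : ℝ) / D ≤ (m : ℝ) / D := by
    intro z hz
    refine ⟨⌈z * D⌉₊, ?_, ?_, ?_⟩
    · rw [le_div_iff₀ hD0]
      exact Nat.le_ceil _
    · rw [div_le_iff₀ hD0]
      have q := (Nat.ceil_lt_add_one (mul_nonneg hz.le hD0.le)).le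
      have q2 : (z + δ) * D = z * D + 1 := by
        rw [hδ]
        field_simp
      rw [q2]
      exact q
    · intro m hm
      rw [le_div_iff₀ hD0] at hm
      exact div_le_div_of_nonneg_right (by exact_mod_cast Nat.ceil_le.2 hm) hD0.le
  obtain ⟨i, hi1, hi2, hi3⟩ := grid x hx0
  obtain ⟨i', hi'1, hi'2, -⟩ := grid y (by linarith)
  obtain ⟨x', hx'⟩ : ∃ x' : ℝ, x' = (i : ℝ) / D := ⟨_, rfl⟩
  obtain ⟨y', hy'⟩ : ∃ y' : ℝ, y' = (i' : ℝ) / D := ⟨_, rfl⟩
  rw [← hx'] at hi1 hi2 hi3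
  rw [← hy'] at hi'1 hi'2
  have hx'up : x' ≤ 2 ^ (j + 1) := by
    have q : (((2 ^ (j + 1) * 32 ^ j : ℕ) : ℝ)) / D = 2 ^ (j + 1) := by
      rw [hD]
      push_cast
      field_simp
    have q2 := hi3 (2 ^ (j + 1) * 32 ^ j) (by rw [q]; exact hjx2.le)
    rwa [q] at q2
  have M := hG' i i' x' y' (by rw [hx', hD]) (by rw [hy', hD]) (hjx.trans hi1) hx'up
    (by linarith) (by linarith)
  -- moving to the grid
  have A1 := all_step hW hL (N := 8 ^ (j + 1)) hx1 hi1 (by linarith)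
  have A2 := all_step hW hL (N := 8 ^ (j + 1)) (z := y) (z' := y') (by linarith) hi'1 (by linarith)
  have A0 : ((8 ^ (j + 1) : ℕ) : ℝ) * (6 * δ) = 48 * (1 / 4 : ℝ) ^ j := by
    rw [hδ, hD]
    push_cast
    have e1 : (32 : ℝ) ^ j = 8 ^ j * 4 ^ j := by
      rw [← mul_pow]
      norm_num
    rw [e1, one_div_pow, pow_succ]
    field_simp
    ring
  have A1' : ((8 ^ (j + 1) : ℕ) : ℝ) * (6 * (x' - x)) ≤ 48 * (1 / 4 : ℝ) ^ j := by
    rw [← A0]
    exact mul_le_mul_of_nonneg_left (by linarith) (Nat.cast_nonneg _)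
  have A2' : ((8 ^ (j + 1) : ℕ) : ℝ) * (6 * (y' - y)) ≤ 48 * (1 / 4 : ℝ) ^ j := by
    rw [← A0]
    exact mul_le_mul_of_nonneg_left (by linarith) (Nat.cast_nonneg _)
  -- the tails
  have B1 := tail_step hs0 hs4 hK j hx1 (hjx2.le.trans (pow_le_pow_right₀ (by norm_num) (by omega)))
  have B2 := tail_step hs0 hs4 hK j (y := y) (by linarith) (by
    have q : (2 : ℝ) ^ (j + 2) = 2 * 2 ^ (j + 1) := by ring
    rw [q]
    linarith)
  -- the main term
  have hsh : 1 ≤ Real.sqrt h := Real.one_le_sqrt.2 hh1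
  have M1 : Real.sqrt (y' - x') ≤ (1 + δ) * Real.sqrt h := by
    rw [Real.sqrt_le_left (by positivity), mul_pow, Real.sq_sqrt (by linarith)]
    nlinarith [mul_pos hδ0 hδ0, mul_nonneg hδ0.le (by linarith : 0 ≤ h - 1)]
  have M2 : Real.log x' ≤ Real.log x + δ := by
    have q : Real.log x' ≤ Real.log (x * (1 + δ)) :=
      Real.log_le_log (by linarith) (by nlinarith)
    rw [Real.log_mul hx0.ne' (by positivity)] at q
    have q2 := Real.log_le_sub_one_of_pos (by linarith : 0 < 1 + δ)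
    linarith
  have M2' : 0 ≤ Real.log x' := Real.log_nonneg (by linarith)
  have M3 : C * Real.sqrt (y' - x') * Real.log x' ≤
      C * Real.sqrt h * Real.log x + Real.sqrt h * (C * (((j : ℝ) + 3) * (1 / 32 : ℝ) ^ j)) := by
    have q1 : Real.sqrt (y' - x') * Real.log x' ≤
        ((1 + δ) * Real.sqrt h) * (Real.log x + δ) := mul_le_mul M1 M2 M2' (by positivity)
    have q2 : (1 / 32 : ℝ) ^ j = δ := by
      rw [hδ, hD, one_div_pow]
    rw [q2]
    have q3 : (1 + δ) * (Real.log x + δ) ≤ Real.log x + ((j : ℝ) + 3) * δ := by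
      nlinarith
    have q4 := mul_le_mul_of_nonneg_left q3 (mul_nonneg hC.le (Real.sqrt_nonneg h))
    have q5 := mul_le_mul_of_nonneg_left q1 hC.le
    calc C * Real.sqrt (y' - x') * Real.log x' = C * (Real.sqrt (y' - x') * Real.log x') := by ring
      _ ≤ C * (((1 + δ) * Real.sqrt h) * (Real.log x + δ)) := q5
      _ = C * Real.sqrt h * ((1 + δ) * (Real.log x + δ)) := by ring
      _ ≤ C * Real.sqrt h * (Real.log x + ((j : ℝ) + 3) * δ) := q4
      _ = _ := by ring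
  have M4 : Real.sqrt h * (C * (((j : ℝ) + 3) * (1 / 32 : ℝ) ^ j)) ≤ Real.sqrt h * (1 / 8) :=
    mul_le_mul_of_nonneg_left E3.le (Real.sqrt_nonneg h)
  have hfin : Real.sqrt h * (1 / 2) ≤ Real.sqrt h * Real.log x :=
    mul_le_mul_of_nonneg_left hlx (Real.sqrt_nonneg h)
  rw [← hy]
  have B1' : |Real.sqrt x * S (Real.log x) - Real.sqrt x * part W (8 ^ (j + 1)) (Real.log x)| ≤ 1 / 16 := by
    rw [← mul_sub, abs_mul, abs_of_nonneg (Real.sqrt_nonneg x)]
    exact B1.trans E2.le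
  have B2' : |Real.sqrt y * S (Real.log y) - Real.sqrt y * part W (8 ^ (j + 1)) (Real.log y)| ≤ 1 / 16 := by
    rw [← mul_sub, abs_mul, abs_of_nonneg (Real.sqrt_nonneg y)]
    exact B2.trans E2.le
  rw [abs_le] at A1 A2 B1' B2' M ⊢
  constructor
  · nlinarith [A1.1, A1.2, A2.1, A2.2, B1'.1, B1'.2, B2'.1, B2'.2, M.1, M.2]
  · nlinarith [A1.1, A1.2, A2.1, A2.2, B1'.1, B1'.2, B2'.1, B2'.2, M.1, M.2]

end Pool.Agent.H356.RO
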